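import Mathlib
import Pool.Agent.H8.Horse

namespace Pool.Agent.Results.MP_28d764_an.Aperiodic

open Set Filter Topology Pool.Agent.H8

theorem result (α γ δ C D : ℝ) (hδ : Real.exp (10 ^ 41) ≤ δ)
    (hα : 0 < α) (hα' : α ≤ 1 / δ ^ 200) (hγ : 0 < γ) (hγ' : γ ≤ 1 / δ ^ 200)
    (hC : 0 < C) (hC' : C ≤ 1 / δ ^ 200) (hD : 0 < D) (hD' : D ≤ 1 / δ ^ 200) :
    ∃ x : ℕ → ℝ, (∀ n, 0 < x n) ∧
    (∀ n, x (n + 3) = (α + x (n + 2) + γ * x (n + 1) + δ * x n) /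
      (x (n + 2) + C * x (n + 1) + D * x n)) ∧
    (∀ e : ℝ, ¬ Tendsto x atTop (𝓝 e)) ∧
    ∀ (p : ℕ → ℝ) (k : ℕ), 1 ≤ k → (∀ n, p (n + k) = p n) →
      ¬ Tendsto (fun n => x n - p n) atTop (𝓝 0) := by
  have hB0 : 0 < δ := (Real.exp_pos _).trans_le hδ
  have hL : 10 ^ 41 ≤ Real.log δ := (Real.le_log_iff_exp_le hB0).2 hδ
  set L := Real.log δ with hLd
  have hL0 : 0 < L := lt_of_lt_of_le (by norm_num) hL
  have eB : Real.exp L = δ := Real.exp_log hB0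
  have e2 : Real.exp (-200 * L) = 1 / δ ^ 200 := by
    rw [neg_mul, Real.exp_neg, ← eB, ← Real.exp_nat_mul, one_div]
    norm_num
  obtain ⟨y, y1, y2, y3⟩ := Horse.main L α γ C D hL ⟨hα.le, by rwa [e2]⟩ ⟨hγ.le, by rwa [e2]⟩
    ⟨hC.le, by rwa [e2]⟩ ⟨hD.le, by rwa [e2]⟩
  have key : ∀ (p : ℕ → ℝ) (k : ℕ), 1 ≤ k → (∀ n, p (n + k) = p n) →
      ¬ Tendsto (fun n => y n - p n) atTop (𝓝 0) := by
    have hlt : Real.exp (L * (653 / 200)) < Real.exp (L * (3289 / 1000)) :=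
      Real.exp_lt_exp.2 (by nlinarith)
    refine Itin.not_asym y _ (sub_pos.2 hlt) 73 fun k hk N => ?_
    obtain ⟨n, h1, h2, h3⟩ := y3 k hk N
    exact ⟨n, h1, le_abs.2 (Or.inl (by linarith))⟩
  refine ⟨y, fun n => (Real.exp_pos _).trans_le (y1 n).1, fun n => ?_, fun e h => ?_, key⟩
  · simp only [y2 n, eB]
  · exact key (fun _ => _) 1 le_rfl (fun _ => rfl) (tendsto_sub_nhds_zero_iff.2 h)

end Pool.Agent.Results.MP_28d764_an.Aperiodic
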